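import Mathlib

open scoped symmDiff

namespace Pool.Agent.Old.MP_5333ad_co.CuboidCounterexample

/-- The lattice graph on `ℤ^d`: `x` and `y` are adjacent when their `ℓ¹` distance is one. -/
def latticeGraph (d : ℕ) : SimpleGraph (Fin d → ℤ) where
  Adj x y := ∑ i, |x i - y i| = 1
  symm := ⟨fun x y h => by
    rw [← h]
    exact Finset.sum_congr rfl fun i _ => abs_sub_comm _ _⟩
  loopless := ⟨fun x h => by simp at h⟩

/-- The edge boundary of `S`: the edges of the lattice graph with exactly one endpoint in `S`. -/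
def edgeBoundary {d : ℕ} (S : Finset (Fin d → ℤ)) : Set (Sym2 (Fin d → ℤ)) :=
  {e | e ∈ (latticeGraph d).edgeSet ∧ ∃ x y, e = s(x, y) ∧ x ∈ S ∧ y ∉ S}

/-- The cube `a + {0, …, k-1}^d`. -/
noncomputable def cube {d : ℕ} (a : Fin d → ℤ) (k : ℕ) : Finset (Fin d → ℤ) :=
  Fintype.piFinset fun i => Finset.Ico (a i) (a i + k)

/-- The box with the given side lengths and a corner at the origin. -/
noncomputable def box {d : ℕ} (s : Fin d → ℕ) : Finset (Fin d → ℤ) :=
  Fintype.piFinset fun i => Finset.Ico (0 : ℤ) (s i)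

lemma card_cube {d : ℕ} (a : Fin d → ℤ) (k : ℕ) : (cube a k).card = k ^ d := by
  simp [cube, Fintype.card_piFinset]

lemma card_box {d : ℕ} (s : Fin d → ℕ) : (box s).card = ∏ i, s i := by
  simp [box, Fintype.card_piFinset]

lemma adj_cases {d : ℕ} {x y : Fin d → ℤ} (h : ∑ i, |x i - y i| = 1) :
    ∃ i, y = Function.update x i (x i + 1) ∨ y = Function.update x i (x i - 1) := by
  classical
  have h1 : ∃ i, x i - y i ≠ 0 := by
    by_contra hc
    push Not at hc
    simp [hc] at h
  obtain ⟨i, hi⟩ := h1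
  have hpos : 1 ≤ |x i - y i| := Int.one_le_abs hi
  have hsplit := Finset.add_sum_erase Finset.univ (fun j => |x j - y j|) (Finset.mem_univ i)
  have hnn : 0 ≤ ∑ j ∈ Finset.univ.erase i, |x j - y j| :=
    Finset.sum_nonneg fun j _ => abs_nonneg _
  have hz : ∑ j ∈ Finset.univ.erase i, |x j - y j| = 0 := by
    omega
  have hone : |x i - y i| = 1 := by
    omega
  have hrest : ∀ j, j ≠ i → y j = x j := by
    intro j hj
    have := (Finset.sum_eq_zero_iff_of_nonneg (fun j _ => abs_nonneg (x j - y j))).1 hz j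
      (Finset.mem_erase.2 ⟨hj, Finset.mem_univ j⟩)
    have := abs_eq_zero.1 this
    omega
  refine ⟨i, ?_⟩
  rcases abs_eq (by norm_num : (0 : ℤ) ≤ 1) |>.1 hone with h2 | h2
  · right
    funext j
    by_cases hj : j = i
    · subst hj
      simp
      omega
    · simp [Function.update_of_ne hj, hrest j hj]
  · left
    funext j
    by_cases hj : j = i
    · subst hj
      simp
      omega
    · simp [Function.update_of_ne hj, hrest j hj]

/-- The face of the box on which coordinate `i` equals `c`. -/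
noncomputable def face {d : ℕ} (s : Fin d → ℕ) (i : Fin d) (c : ℤ) : Finset (Fin d → ℤ) :=
  Fintype.piFinset (Function.update (fun j => Finset.Ico (0 : ℤ) (s j)) i {c})

lemma card_face {d : ℕ} (s : Fin d → ℕ) (i : Fin d) (c : ℤ) :
    (face s i c).card = ∏ j ∈ Finset.univ.erase i, s j := by
  classical
  rw [face, Fintype.card_piFinset,
    ← Finset.mul_prod_erase Finset.univ _ (Finset.mem_univ i)]
  simp only [Function.update_self, Finset.card_singleton, one_mul]
  refine Finset.prod_congr rfl fun j hj => ?_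
  rw [Function.update_of_ne (Finset.mem_erase.1 hj).1]
  simp

lemma mem_face {d : ℕ} {s : Fin d → ℕ} {i : Fin d} {c : ℤ} {x : Fin d → ℤ}
    (hx : x ∈ box s) (hc : x i = c) : x ∈ face s i c := by
  classical
  rw [box, Fintype.mem_piFinset] at hx
  rw [face, Fintype.mem_piFinset]
  intro j
  by_cases hj : j = i
  · subst hj
    simp [hc]
  · rw [Function.update_of_ne hj]
    exact hx j

/-- A finite set of edges that contains the edge boundary of the box. -/
noncomputable def cover {d : ℕ} (s : Fin d → ℕ) : Finset (Sym2 (Fin d → ℤ)) :=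
  Finset.univ.biUnion fun i =>
    (face s i (s i - 1)).image (fun x => s(x, Function.update x i (x i + 1))) ∪
      (face s i 0).image (fun x => s(x, Function.update x i (x i - 1)))

lemma boundary_subset {d : ℕ} (s : Fin d → ℕ) :
    edgeBoundary (box s) ⊆ (cover s : Set (Sym2 (Fin d → ℤ))) := by
  classical
  rintro e ⟨he, x, y, rfl, hx, hy⟩
  rw [SimpleGraph.mem_edgeSet] at he
  obtain ⟨i, hi⟩ := adj_cases he
  have hx' := hx
  rw [box, Fintype.mem_piFinset] at hx'
  rw [box, Fintype.mem_piFinset] at hy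
  simp only [cover, Finset.coe_biUnion, Finset.coe_univ, Set.mem_univ, Set.iUnion_true,
    Set.mem_iUnion, Finset.coe_union, Finset.coe_image, Set.mem_union, Set.mem_image,
    Finset.mem_coe]
  refine ⟨i, ?_⟩
  have hxi := Finset.mem_Ico.1 (hx' i)
  rcases hi with hi | hi
  · left
    refine ⟨x, mem_face hx ?_, by rw [hi]⟩
    by_contra hne
    apply hy
    intro j
    by_cases hj : j = i
    · subst hj
      rw [hi, Function.update_self, Finset.mem_Ico]
      omega
    · rw [hi, Function.update_of_ne hj]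
      exact hx' j
  · right
    refine ⟨x, mem_face hx ?_, by rw [hi]⟩
    by_contra hne
    apply hy
    intro j
    by_cases hj : j = i
    · subst hj
      rw [hi, Function.update_self, Finset.mem_Ico]
      omega
    · rw [hi, Function.update_of_ne hj]
      exact hx' j

lemma card_cover {d : ℕ} (s : Fin d → ℕ) :
    (cover s).card ≤ ∑ i, 2 * ∏ j ∈ Finset.univ.erase i, s j := by
  classical
  refine Finset.card_biUnion_le.trans (Finset.sum_le_sum fun i _ => ?_)
  refine (Finset.card_union_le _ _).trans ?_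
  have h1 := Finset.card_image_le (s := face s i (s i - 1))
    (f := fun x => s(x, Function.update x i (x i + 1)))
  have h2 := Finset.card_image_le (s := face s i 0)
    (f := fun x => s(x, Function.update x i (x i - 1)))
  rw [card_face] at h1 h2
  omega

lemma ncard_boundary_le {d : ℕ} (s : Fin d → ℕ) (hs : ∀ i, 0 < s i) :
    ((edgeBoundary (box s)).ncard : ℝ) ≤ 2 * ((box s).card : ℝ) * ∑ i, (1 / (s i : ℝ)) := by
  classical
  have h1 : (edgeBoundary (box s)).ncard ≤ (cover s).card := by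
    rw [← Set.ncard_coe_finset]
    exact Set.ncard_le_ncard (boundary_subset s) (Finset.finite_toSet _)
  have h2 : ((edgeBoundary (box s)).ncard : ℝ) ≤
      ((∑ i, 2 * ∏ j ∈ Finset.univ.erase i, s j : ℕ) : ℝ) := by
    exact_mod_cast h1.trans (card_cover s)
  refine h2.trans (le_of_eq ?_)
  rw [card_box, Finset.mul_sum]
  push_cast
  refine Finset.sum_congr rfl fun i _ => ?_
  rw [← Finset.mul_prod_erase Finset.univ (fun j => (s j : ℝ)) (Finset.mem_univ i)]
  have : (s i : ℝ) ≠ 0 := by exact_mod_cast (hs i).ne'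
  field_simp

/-- Half of the sides have length `a`, the other half `a + 1`. -/
def side (m a : ℕ) : Fin (m + m) → ℕ := Fin.append (fun _ => a) (fun _ => a + 1)

lemma prod_side (m a : ℕ) : ∏ i, side m a i = a ^ m * (a + 1) ^ m := by
  rw [Fin.prod_univ_add]
  simp only [side, Fin.append_left, Fin.append_right]
  simp

lemma sum_side (m a : ℕ) :
    ∑ i, (1 / (side m a i : ℝ)) = m * (1 / (a : ℝ)) + m * (1 / ((a : ℝ) + 1)) := by
  rw [Fin.sum_univ_add]
  simp only [side, Fin.append_left, Fin.append_right]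
  simp

lemma side_pos (m a : ℕ) (ha : 0 < a) (i : Fin (m + m)) : 0 < side m a i := by
  refine Fin.addCases (fun j => ?_) (fun j => ?_) i
  · simpa only [side, Fin.append_left] using ha
  · simp only [side, Fin.append_right]
    omega

lemma card_le_symmDiff {α : Type*} [DecidableEq α] (S C : Finset α) :
    S.card ≤ (S ∆ C).card + C.card := by
  refine le_trans (Finset.card_le_card ?_) (Finset.card_union_le _ _)
  intro x hx
  by_cases hC : x ∈ C
  · exact Finset.mem_union_right _ hC
  · exact Finset.mem_union_left _ (Finset.mem_symmDiff.2 (Or.inl ⟨hx, hC⟩))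

lemma far_from_cubes (m a : ℕ) (ha : 0 < a) (hma : m ≤ a) (b : Fin (m + m) → ℤ) (k : ℕ) :
    (m : ℝ) / (2 * a) * ((box (side m a)).card : ℝ) ≤ ((box (side m a) ∆ cube b k).card : ℝ) := by
  have hS : ((box (side m a)).card : ℝ) = (a : ℝ) ^ m * ((a : ℝ) + 1) ^ m := by
    rw [card_box, prod_side]
    push_cast
    ring
  have ha' : (0 : ℝ) < a := by exact_mod_cast ha
  have hma' : (m : ℝ) ≤ a := by exact_mod_cast hma
  set A : ℝ := (a : ℝ) ^ m with hA
  set B : ℝ := ((a : ℝ) + 1) ^ m with hB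
  have hApos : 0 < A := by positivity
  have hBpos : 0 < B := by positivity
  have hbern : A * (1 + m * (1 / a)) ≤ B := by
    have h1 : 1 + (m : ℝ) * (1 / a) ≤ (1 + 1 / a) ^ m :=
      one_add_mul_le_pow (by
        have : (0 : ℝ) ≤ 1 / a := by positivity
        linarith) m
    have h2 : B = A * (1 + 1 / a) ^ m := by
      rw [hA, hB, ← mul_pow]
      congr 1
      field_simp
    rw [h2]
    exact mul_le_mul_of_nonneg_left h1 hApos.le
  have hm0 : (0 : ℝ) ≤ m := Nat.cast_nonneg m
  have hbern' : A * (a + m) ≤ B * a := by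
    have : A * (a + m) = A * (1 + m * (1 / a)) * a := by field_simp
    rw [this]
    exact mul_le_mul_of_nonneg_right hbern ha'.le
  have hAB : A ≤ B := by
    by_contra h
    push Not at h
    nlinarith [mul_nonneg hApos.le hm0]
  have hkey : (m : ℝ) / (2 * a) * B ≤ B - A := by
    rw [div_mul_eq_mul_div, div_le_iff₀ (by positivity)]
    nlinarith [mul_nonneg (sub_nonneg.2 hAB) (sub_nonneg.2 hma')]
  have hmain : (m : ℝ) / (2 * a) * (A * B) ≤ A * (B - A) := by
    have := mul_le_mul_of_nonneg_left hkey hApos.le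
    linarith
  have hC : ((cube b k).card : ℝ) = (k : ℝ) ^ m * (k : ℝ) ^ m := by
    rw [card_cube]
    push_cast
    rw [pow_add]
  rw [hS]
  rcases le_or_gt k a with hk | hk
  · have h1 : ((box (side m a)).card : ℝ) ≤
        ((box (side m a) ∆ cube b k).card : ℝ) + ((cube b k).card : ℝ) := by
      exact_mod_cast card_le_symmDiff (box (side m a)) (cube b k)
    have hk' : (k : ℝ) ^ m ≤ A := pow_le_pow_left₀ (Nat.cast_nonneg k) (by exact_mod_cast hk) m
    have h2 : (k : ℝ) ^ m * (k : ℝ) ^ m ≤ A * A :=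
      mul_le_mul hk' hk' (by positivity) hApos.le
    rw [hS, hC] at h1
    nlinarith
  · have h1 : ((cube b k).card : ℝ) ≤
        ((box (side m a) ∆ cube b k).card : ℝ) + ((box (side m a)).card : ℝ) := by
      have := card_le_symmDiff (cube b k) (box (side m a))
      rw [symmDiff_comm] at this
      exact_mod_cast this
    have hk' : B ≤ (k : ℝ) ^ m :=
      pow_le_pow_left₀ (by positivity) (by exact_mod_cast hk) m
    have h2 : B * B ≤ (k : ℝ) ^ m * (k : ℝ) ^ m :=
      mul_le_mul hk' hk' hBpos.le (by positivity)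
    rw [hS, hC] at h1
    nlinarith [mul_nonneg (sub_nonneg.2 hAB) (sub_nonneg.2 hAB)]

lemma small_boundary (m a : ℕ) (hm : 0 < m) (ha : 0 < a) :
    ((edgeBoundary (box (side m a))).ncard : ℝ) ≤
      2 * ((m + m : ℕ) : ℝ) *
        ((box (side m a)).card : ℝ) ^ ((((m + m : ℕ) : ℝ) - 1) / ((m + m : ℕ) : ℝ)) *
          (1 + 1 / (8 * (a : ℝ) ^ 2)) := by
  have ha' : (0 : ℝ) < a := by exact_mod_cast ha
  have hm' : (0 : ℝ) < m := by exact_mod_cast hm
  have hS : ((box (side m a)).card : ℝ) = ((a : ℝ) * ((a : ℝ) + 1)) ^ m := by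
    rw [card_box, prod_side]
    push_cast
    rw [mul_pow]
  set r : ℝ := Real.sqrt ((a : ℝ) * ((a : ℝ) + 1)) with hr
  have hprod : (0 : ℝ) < (a : ℝ) * ((a : ℝ) + 1) := by positivity
  have hrpos : 0 < r := Real.sqrt_pos.2 hprod
  have hrsq : r ^ 2 = (a : ℝ) * ((a : ℝ) + 1) := Real.sq_sqrt hprod.le
  have hpow : ((box (side m a)).card : ℝ) ^ ((((m + m : ℕ) : ℝ) - 1) / ((m + m : ℕ) : ℝ)) =
      ((box (side m a)).card : ℝ) / r := by
    rw [hS, ← hrsq, ← pow_mul, ← Real.rpow_natCast r (2 * m), ← Real.rpow_mul hrpos.le,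
      ← Real.rpow_sub_one hrpos.ne']
    congr 1
    push_cast
    field_simp
    ring
  refine (ncard_boundary_le _ (side_pos m a ha)).trans ?_
  rw [hpow, sum_side]
  have hcard : (0 : ℝ) < ((box (side m a)).card : ℝ) := by
    rw [hS]
    positivity
  set N : ℝ := ((box (side m a)).card : ℝ)
  have hε : (0 : ℝ) < 1 / (8 * (a : ℝ) ^ 2) := by positivity
  have hkey : 2 * (a : ℝ) + 1 ≤ 2 * r * (1 + 1 / (8 * (a : ℝ) ^ 2)) := by
    refine (pow_le_pow_iff_left₀ (by positivity) ?_ two_ne_zero).1 ?_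
    swap
    · have h1 : (2 * r * (1 + 1 / (8 * (a : ℝ) ^ 2))) ^ 2 =
          4 * ((a : ℝ) * (a + 1)) * (1 + 1 / (8 * (a : ℝ) ^ 2)) ^ 2 := by
        rw [← hrsq]
        ring
      have h2 : 1 + 2 * (1 / (8 * (a : ℝ) ^ 2)) ≤ (1 + 1 / (8 * (a : ℝ) ^ 2)) ^ 2 := by
        nlinarith [sq_nonneg (1 / (8 * (a : ℝ) ^ 2))]
      have h3 : 4 * ((a : ℝ) * (a + 1)) * (1 + 2 * (1 / (8 * (a : ℝ) ^ 2))) =
          4 * ((a : ℝ) * (a + 1)) + 1 + 1 / a := by
        field_simp
        ring
      have h4 : (0 : ℝ) < 1 / a := by positivity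
      have h5 := mul_le_mul_of_nonneg_left h2 (by positivity : (0 : ℝ) ≤ 4 * ((a : ℝ) * (a + 1)))
      rw [h1]
      nlinarith
    · positivity
  have hL : 2 * N * (m * (1 / (a : ℝ)) + m * (1 / ((a : ℝ) + 1))) =
      2 * N * m / r ^ 2 * (2 * (a : ℝ) + 1) := by
    rw [hrsq]
    field_simp
    ring
  have hR : 2 * ((m + m : ℕ) : ℝ) * (N / r) * (1 + 1 / (8 * (a : ℝ) ^ 2)) =
      2 * N * m / r ^ 2 * (2 * r * (1 + 1 / (8 * (a : ℝ) ^ 2))) := by
    push_cast
    field_simp
    ring
  rw [hL, hR]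
  exact mul_le_mul_of_nonneg_left hkey (by positivity)

theorem result : ∀ c' : ℝ, 0 < c' → ∃ d : ℕ, 1 ≤ d ∧ ∀ δ : ℝ, 0 < δ → ∃ ε : ℝ, 0 < ε ∧ ε < δ ∧
    ∃ S : Finset (Fin d → ℤ), S.Nonempty ∧ (edgeBoundary S).Finite ∧
      ((edgeBoundary S).ncard : ℝ) ≤
        2 * (d : ℝ) * (S.card : ℝ) ^ (((d : ℝ) - 1) / (d : ℝ)) * (1 + ε) ∧
      ∀ (a : Fin d → ℤ) (k : ℕ), 1 ≤ k →
        c' * Real.sqrt ((d : ℝ) * ε) * (S.card : ℝ) < ((S ∆ cube a k).card : ℝ) := by
  intro c' hc'
  obtain ⟨m, hm⟩ := exists_nat_gt (c' ^ 2)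
  have hm' : (0 : ℝ) < m := lt_of_le_of_lt (sq_nonneg c') hm
  have hm0 : 0 < m := by exact_mod_cast hm'
  refine ⟨m + m, by omega, fun δ hδ => ?_⟩
  obtain ⟨n, hn⟩ := exists_nat_gt (1 / δ)
  set a : ℕ := m + n with ha
  have ha0 : 0 < a := by omega
  have ha' : (0 : ℝ) < a := by exact_mod_cast ha0
  have ha1 : (1 : ℝ) ≤ a := by exact_mod_cast ha0
  have hna : (n : ℝ) ≤ a := by
    have : n ≤ a := by omega
    exact_mod_cast this
  have hcard : (0 : ℝ) < ((box (side m a)).card : ℝ) := by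
    rw [card_box, prod_side]
    positivity
  refine ⟨1 / (8 * (a : ℝ) ^ 2), by positivity, ?_, box (side m a), ?_, ?_,
    small_boundary m a hm0 ha0, fun b k _ => ?_⟩
  · rw [div_lt_iff₀ (by positivity)]
    rw [div_lt_iff₀ hδ] at hn
    nlinarith [mul_le_mul_of_nonneg_right hna hδ.le, mul_pos hδ ha',
      mul_le_mul_of_nonneg_left ha1 (mul_pos hδ ha').le]
  · exact Finset.card_pos.1 (by exact_mod_cast hcard)
  · exact (Finset.finite_toSet _).subset (boundary_subset _)
  · refine lt_of_lt_of_le ?_ (far_from_cubes m a ha0 (by omega) b k)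
    refine mul_lt_mul_of_pos_right ?_ hcard
    have hs : Real.sqrt (((m + m : ℕ) : ℝ) * (1 / (8 * (a : ℝ) ^ 2))) =
        Real.sqrt m / (2 * a) := by
      have h1 : ((m + m : ℕ) : ℝ) * (1 / (8 * (a : ℝ) ^ 2)) = m / (2 * a) ^ 2 := by
        push_cast
        field_simp
        ring
      rw [h1, Real.sqrt_div hm'.le, Real.sqrt_sq (by positivity)]
    rw [hs, ← mul_div_assoc]
    refine div_lt_div_of_pos_right ?_ (by positivity)
    have hlt : c' < Real.sqrt m := Real.lt_sqrt_of_sq_lt hm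
    have hpos : 0 < Real.sqrt m := Real.sqrt_pos.2 hm'
    calc c' * Real.sqrt m < Real.sqrt m * Real.sqrt m := mul_lt_mul_of_pos_right hlt hpos
      _ = m := Real.mul_self_sqrt hm'.le

end Pool.Agent.Old.MP_5333ad_co.CuboidCounterexample
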